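import Mathlib
import Pool.Agent.Lib.MP_12ff4f_co.Grid

set_option autoImplicit false

/-!
# Cells of pairs of grid points, anchored families, cheap directions

Vertices are pairs (type, point of the grid `Fin (D+1) → Fin m`).  Coordinate `0` is signed, the
coordinates `1, .., D` are unsigned.  The cell of a pair `x, y` is `(type x, type y, sg, msk)`.
-/

namespace Pool.Agent.BicliqueHalf

open Finset

theorem Rep1.add {V : Type} {a b : V → V → ℕ} {k l : ℕ} (h : Rep1 a k) (h' : Rep1 b l) :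
    Rep1 (fun x y => a x y + b x y) (k + l) := by
  obtain ⟨ι, i1, A, B, h1, h2, h3⟩ := h
  obtain ⟨κ, i2, A', B', h1', h2', h3'⟩ := h'
  refine ⟨ι ⊕ κ, inferInstance, Sum.elim A A', Sum.elim B B', ?_, ?_, ?_⟩
  · rw [Fintype.card_sum]; exact Nat.add_le_add h1 h1'
  · rintro (i | i)
    · exact h2 i
    · exact h2' i
  · intro x y hxy
    rw [Fintype.sum_sum_type]
    simp only [Sum.elim_inl, Sum.elim_inr]
    rw [h3 x y hxy, h3' x y hxy]

theorem Rep1.zero {V : Type} : Rep1 (fun (_ _ : V) => 0) 0 := by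
  refine ⟨Empty, inferInstance, fun i => i.elim, fun i => i.elim, by simp, fun i => i.elim, ?_⟩
  intro x y _
  simp

theorem Rep1.sum {V J : Type} (s : Finset J) (f : J → V → V → ℕ) (k : J → ℕ)
    (h : ∀ j ∈ s, Rep1 (f j) (k j)) :
    Rep1 (fun x y => ∑ j ∈ s, f j x y) (∑ j ∈ s, k j) := by
  classical
  induction s using Finset.induction_on with
  | empty => simpa using (Rep1.zero : Rep1 (fun (_ _ : V) => 0) 0)
  | insert j s hj ih =>
    simp only [Finset.sum_insert hj]
    exact (h j (Finset.mem_insert_self _ _)).add (ih fun i hi => h i (Finset.mem_insert_of_mem hi))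

theorem Rep1.listSum {V J : Type} (l : List J) (f : J → V → V → ℕ) (k : ℕ)
    (h : ∀ j ∈ l, Rep1 (f j) k) :
    Rep1 (fun x y => (l.map fun j => f j x y).sum) (l.length * k) := by
  induction l with
  | nil => simpa using (Rep1.zero : Rep1 (fun (_ _ : V) => 0) 0)
  | cons j l ih =>
    have h1 := (h j (by simp)).add (ih fun i hi => h i (by simp [hi]))
    simp only [List.map_cons, List.sum_cons, List.length_cons]
    rw [show (l.length + 1) * k = k + l.length * k by ring]
    exact h1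

namespace K4

variable {D m : ℕ}

/-- the mask of the unsigned coordinates in which `X`, `Y` differ -/
def msk (X Y : Fin (D + 1) → Fin m) : ℕ :=
  Nat.ofBits (fun i : Fin D => decide (X i.succ ≠ Y i.succ))

/-- the sign in the coordinate `0` -/
def sg (X Y : Fin (D + 1) → Fin m) : ℕ := if X 0 = Y 0 then 0 else if X 0 < Y 0 then 1 else 2

/-- exchange of the signs -/
def sw (σ : ℕ) : ℕ := (3 - σ) % 3

theorem testBit_msk (X Y : Fin (D + 1) → Fin m) (i : Fin D) :
    (msk X Y).testBit i = decide (X i.succ ≠ Y i.succ) := by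
  unfold msk
  rw [Nat.testBit_ofBits_lt _ _ i.isLt]

theorem testBit_msk_ge (X Y : Fin (D + 1) → Fin m) (i : ℕ) (hi : D ≤ i) :
    (msk X Y).testBit i = false := by
  unfold msk
  exact Nat.testBit_ofBits_ge _ _ hi

theorem msk_lt (X Y : Fin (D + 1) → Fin m) : msk X Y < 2 ^ D := Nat.ofBits_lt_two_pow _

theorem msk_comm (X Y : Fin (D + 1) → Fin m) : msk X Y = msk Y X := by
  unfold msk
  congr 1
  funext i
  exact decide_eq_decide.2 ne_comm

theorem sg_lt (X Y : Fin (D + 1) → Fin m) : sg X Y < 3 := by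
  unfold sg
  split_ifs <;> omega

theorem sg_comm (X Y : Fin (D + 1) → Fin m) : sg Y X = sw (sg X Y) := by
  unfold sg sw
  rcases lt_trichotomy (X 0) (Y 0) with h | h | h
  · rw [if_neg h.ne', if_neg (not_lt.2 h.le), if_neg h.ne, if_pos h]
  · rw [if_pos h.symm, if_pos h]
  · rw [if_neg h.ne, if_pos h, if_neg h.ne', if_neg (not_lt.2 h.le)]

theorem sg_eq_zero (X Y : Fin (D + 1) → Fin m) : sg X Y = 0 ↔ X 0 = Y 0 := by
  unfold sg
  split_ifs with h1 h2 <;> simp [h1]

/-- membership in a list of (type, sign, mask) -/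
def memB (l : List (ℕ × ℕ × ℕ)) (a b c : ℕ) : Bool :=
  l.any fun q => Nat.beq q.1 a && (Nat.beq q.2.1 b && Nat.beq q.2.2 c)

theorem memB_iff (l : List (ℕ × ℕ × ℕ)) (a b c : ℕ) : memB l a b c = true ↔ (a, b, c) ∈ l := by
  unfold memB
  rw [List.any_eq_true]
  constructor
  · rintro ⟨q, hq, h⟩
    simp only [Bool.and_eq_true, Nat.beq_eq] at h
    obtain ⟨h1, h2, h3⟩ := h
    rw [← h1, ← h2, ← h3]
    exact hq
  · intro h
    refine ⟨_, h, ?_⟩
    simp only [Bool.and_eq_true, Nat.beq_eq, and_self]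

/-- an anchored family: `b` = the signed coordinate belongs to the `X` side, `P` = mask of the
unsigned coordinates of the `X` side -/
structure Fam where
  b : Bool
  P : ℕ
  X : List (ℕ × ℕ × ℕ)
  Y : List (ℕ × ℕ × ℕ)

/-- the conditions on a family -/
def Fam.ok (F : Fam) : Bool :=
  (F.X.all fun q => Nat.beq (q.2.2 &&& F.P) q.2.2 && (F.b || Nat.beq q.2.1 0)) &&
  ((F.Y.all fun q => Nat.beq (q.2.2 &&& F.P) 0 && (!F.b || Nat.beq q.2.1 0)) &&
    (F.X.all fun q => !memB F.Y q.1 q.2.1 q.2.2))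

/-- the first vertex is on the `X` side, the second one on the `Y` side -/
def Fam.c1 (F : Fam) (s t σ S : ℕ) : Bool :=
  memB F.X s (bif F.b then sw σ else 0) (S &&& F.P) &&
    memB F.Y t (bif F.b then 0 else σ) (S ^^^ (S &&& F.P))

/-- the anchor of a pair -/
def mg (F : Fam) (f g : Fin (D + 1) → Fin m) : Fin (D + 1) → Fin m :=
  Fin.cons (bif F.b then g 0 else f 0) fun i : Fin D =>
    bif F.P.testBit i then g i.succ else f i.succ

theorem mg_zero (F : Fam) (f g : Fin (D + 1) → Fin m) :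
    mg F f g 0 = bif F.b then g 0 else f 0 := rfl

theorem mg_succ (F : Fam) (f g : Fin (D + 1) → Fin m) (i : Fin D) :
    mg F f g i.succ = bif F.P.testBit i then g i.succ else f i.succ := rfl

theorem eq_of_testBit {a b : ℕ} (h1 : ∀ i : Fin D, a.testBit i = b.testBit i)
    (h2 : ∀ i, D ≤ i → a.testBit i = b.testBit i) : a = b := by
  apply Nat.eq_of_testBit_eq
  intro i
  rcases lt_or_ge i D with h | h
  · exact h1 ⟨i, h⟩
  · exact h2 i h

theorem sg_mg_left (F : Fam) (f g : Fin (D + 1) → Fin m) :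
    sg (mg F f g) f = bif F.b then sw (sg f g) else 0 := by
  cases h : F.b
  · rw [cond_false, sg_eq_zero, mg_zero, h, cond_false]
  · rw [cond_true, ← sg_comm]
    unfold sg
    rw [mg_zero, h, cond_true]

theorem sg_mg_right (F : Fam) (f g : Fin (D + 1) → Fin m) :
    sg (mg F f g) g = bif F.b then 0 else sg f g := by
  cases h : F.b
  · rw [cond_false]
    unfold sg
    rw [mg_zero, h, cond_false]
  · rw [cond_true, sg_eq_zero, mg_zero, h, cond_true]

theorem msk_mg_left (F : Fam) (f g : Fin (D + 1) → Fin m) :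
    msk (mg F f g) f = msk f g &&& F.P := by
  apply eq_of_testBit (D := D)
  · intro i
    rw [Nat.testBit_and, testBit_msk, testBit_msk, mg_succ]
    cases h : F.P.testBit i
    · simp
    · simp only [cond_true, Bool.and_true]
      exact decide_eq_decide.2 ne_comm
  · intro i hi
    rw [Nat.testBit_and, testBit_msk_ge _ _ _ hi, testBit_msk_ge _ _ _ hi, Bool.false_and]

theorem msk_mg_right (F : Fam) (f g : Fin (D + 1) → Fin m) :
    msk (mg F f g) g = msk f g ^^^ (msk f g &&& F.P) := by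
  apply eq_of_testBit (D := D)
  · intro i
    rw [Nat.testBit_xor, Nat.testBit_and, testBit_msk, testBit_msk, mg_succ]
    cases h : F.P.testBit i
    · simp
    · simp
  · intro i hi
    rw [Nat.testBit_xor, Nat.testBit_and, testBit_msk_ge _ _ _ hi, testBit_msk_ge _ _ _ hi]
    rfl

theorem Fam.ok_X {F : Fam} (h : F.ok = true) {a b c : ℕ} (hq : (a, b, c) ∈ F.X) :
    c &&& F.P = c ∧ (F.b = false → b = 0) := by
  unfold Fam.ok at h
  rw [Bool.and_eq_true, List.all_eq_true] at h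
  have h1 := h.1 _ hq
  simp only [Bool.and_eq_true, Bool.or_eq_true, Nat.beq_eq] at h1
  refine ⟨h1.1, fun hb => ?_⟩
  rcases h1.2 with h2 | h2
  · rw [hb] at h2; cases h2
  · exact h2

theorem Fam.ok_Y {F : Fam} (h : F.ok = true) {a b c : ℕ} (hq : (a, b, c) ∈ F.Y) :
    c &&& F.P = 0 ∧ (F.b = true → b = 0) := by
  unfold Fam.ok at h
  rw [Bool.and_eq_true, Bool.and_eq_true, List.all_eq_true, List.all_eq_true] at h
  have h1 := h.2.1 _ hq
  simp only [Bool.and_eq_true, Bool.or_eq_true, Nat.beq_eq, Bool.not_eq_true'] at h1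
  refine ⟨h1.1, fun hb => ?_⟩
  rcases h1.2 with h2 | h2
  · rw [hb] at h2; cases h2
  · exact h2

theorem Fam.ok_XY {F : Fam} (h : F.ok = true) {a b c : ℕ} (hq : (a, b, c) ∈ F.X) :
    (a, b, c) ∉ F.Y := by
  unfold Fam.ok at h
  rw [Bool.and_eq_true, Bool.and_eq_true] at h
  have h1 := List.all_eq_true.1 h.2.2 _ hq
  intro h2
  rw [← memB_iff] at h2
  simp only [h2] at h1
  cases h1

theorem mem_fam_iff {F : Fam} (hF : F.ok = true) (s t : ℕ) (f g z : Fin (D + 1) → Fin m) :
    ((s, sg z f, msk z f) ∈ F.X ∧ (t, sg z g, msk z g) ∈ F.Y) ↔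
      (F.c1 s t (sg f g) (msk f g) = true ∧ z = mg F f g) := by
  have hc : F.c1 s t (sg f g) (msk f g) = true ↔
      ((s, sg (mg F f g) f, msk (mg F f g) f) ∈ F.X ∧
        (t, sg (mg F f g) g, msk (mg F f g) g) ∈ F.Y) := by
    unfold Fam.c1
    rw [Bool.and_eq_true, memB_iff, memB_iff, sg_mg_left, sg_mg_right, msk_mg_left,
      msk_mg_right]
  constructor
  · rintro ⟨h1, h2⟩
    have hz : z = mg F f g := by
      obtain ⟨h3, h4⟩ := Fam.ok_X hF h1
      obtain ⟨h5, h6⟩ := Fam.ok_Y hF h2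
      funext i
      refine Fin.cases ?_ (fun j => ?_) i
      · rw [mg_zero]
        cases hb : F.b
        · exact (sg_eq_zero _ _).1 (h4 hb)
        · exact (sg_eq_zero _ _).1 (h6 hb)
      · rw [mg_succ]
        cases hp : F.P.testBit j
        · have h7 := congrArg (fun n => n.testBit (j : ℕ)) h3
          simp only [Nat.testBit_and, hp, Bool.and_false, testBit_msk] at h7
          simpa using h7
        · have h7 := congrArg (fun n => n.testBit (j : ℕ)) h5
          simp only [Nat.testBit_and, hp, Bool.and_true, testBit_msk, Nat.zero_testBit] at h7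
          simpa using h7
    exact ⟨hc.2 (by rw [← hz]; exact ⟨h1, h2⟩), hz⟩
  · rintro ⟨h1, rfl⟩
    exact hc.1 h1

theorem sum_ind_eq {ι : Type} [Fintype ι] (P : ι → Prop) (Q : Prop) (a : ι)
    (hP : ∀ i, P i ↔ (Q ∧ i = a)) : ∑ i, ind (P i) = ind Q := by
  by_cases h : Q
  · rw [ind_pos h, Fintype.sum_eq_single a]
    · exact ind_pos ((hP a).2 ⟨h, rfl⟩)
    · intro i hi
      exact ind_neg fun h1 => hi ((hP i).1 h1).2
  · rw [ind_neg h]
    exact Finset.sum_eq_zero fun i _ => ind_neg fun h1 => h ((hP i).1 h1).1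

/-- an anchored family uses one biclique for each grid point -/
theorem rep_fam {k : ℕ} {F : Fam} (hF : F.ok = true) :
    Rep1 (fun x y : Vx (Fin k) (Fin (D + 1)) m =>
      ind (F.c1 x.1 y.1 (sg x.2 y.2) (msk x.2 y.2) = true) +
        ind (F.c1 y.1 x.1 (sg y.2 x.2) (msk y.2 x.2) = true)) (m ^ (D + 1)) := by
  classical
  refine ⟨Fin (D + 1) → Fin m, inferInstance,
    fun z => {x | ((x.1 : ℕ), sg z x.2, msk z x.2) ∈ F.X},
    fun z => {x | ((x.1 : ℕ), sg z x.2, msk z x.2) ∈ F.Y}, ?_, ?_, ?_⟩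
  · rw [Fintype.card_fun, Fintype.card_fin, Fintype.card_fin]
  · intro z
    rw [Set.disjoint_left]
    intro x hx hy
    exact Fam.ok_XY hF hx hy
  · intro x y _
    beta_reduce
    rw [← sum_ind_eq _ _ _ (fun z => mem_fam_iff hF (x.1 : ℕ) (y.1 : ℕ) x.2 y.2 z),
      ← sum_ind_eq _ _ _ (fun z => mem_fam_iff hF (y.1 : ℕ) (x.1 : ℕ) y.2 x.2 z),
      ← Finset.sum_add_distrib]
    refine Finset.sum_congr rfl fun z _ => ?_
    unfold Cv
    simp only [Set.mem_ofPred_eq]
    by_cases h1 : ((x.1 : ℕ), sg z x.2, msk z x.2) ∈ F.X ∧ ((y.1 : ℕ), sg z y.2, msk z y.2) ∈ F.Y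
    · rw [ind_pos (Or.inl h1), ind_pos h1, ind_neg fun h2 => Fam.ok_XY hF h1.1 h2.2]
    · rw [ind_neg h1, zero_add]
      by_cases h2 : ((x.1 : ℕ), sg z x.2, msk z x.2) ∈ F.Y ∧
          ((y.1 : ℕ), sg z y.2, msk z y.2) ∈ F.X
      · rw [ind_pos (Or.inr h2), ind_pos ⟨h2.2, h2.1⟩]
      · rw [ind_neg, ind_neg]
        · exact fun h3 => h2 ⟨h3.2, h3.1⟩
        · rintro (h3 | h3)
          · exact h1 h3
          · exact h2 h3

/-- the conditions on the cheap direction `e = dir s t σ S` of a cell -/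
def cheapOk (D : ℕ) (dir : ℕ → ℕ → ℕ → ℕ → ℕ) (s t σ S : ℕ) : Bool :=
  Nat.beq (dir t s (sw σ) S) (dir s t σ S) &&
  (Nat.beq (dir s t σ S) 0 ||
    ((Nat.ble (dir s t σ S) D &&
      (Nat.beq (dir s t σ (S ^^^ 2 ^ (dir s t σ S - 1))) (dir s t σ S) &&
        !(Nat.beq s t && (Nat.beq σ 0 &&
          (Nat.beq S 0 || Nat.beq S (2 ^ (dir s t σ S - 1))))))) ||
    (Nat.beq (dir s t σ S) (D + 1) &&
      ((Nat.beq (dir s t 0 S) (D + 1) && (Nat.beq (dir s t 1 S) (D + 1) &&
        Nat.beq (dir s t 2 S) (D + 1))) && !(Nat.beq s t && Nat.beq S 0)))))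

/-- the check of one cell: the class `cls` is the union of the main cells and the cheap ones -/
def cellOk (Fs : List Fam) (dir : ℕ → ℕ → ℕ → ℕ → ℕ) (cls : ℕ → ℕ → ℕ → ℕ → Bool)
    (s t σ S : ℕ) : Bool :=
  (Nat.beq s t && (Nat.beq σ 0 && Nat.beq S 0)) ||
    (Nat.beq ((Fs.map fun F => (F.c1 s t σ S).toNat + (F.c1 t s (sw σ) S).toNat).sum +
      (bif Nat.beq (dir s t σ S) 0 then 0 else 1)) (cls s t σ S).toNat)

/-- the check of a class -/
def chk (k D : ℕ) (Fs : List Fam) (dir : ℕ → ℕ → ℕ → ℕ → ℕ) (cls : ℕ → ℕ → ℕ → ℕ → Bool) :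
    Bool :=
  Fs.all Fam.ok &&
  ((List.range k).all fun s => (List.range k).all fun t => (List.range 3).all fun σ =>
    (List.range (2 ^ D)).all fun S => cheapOk D dir s t σ S && cellOk Fs dir cls s t σ S)

theorem chk_cell {k : ℕ} {Fs : List Fam} {dir : ℕ → ℕ → ℕ → ℕ → ℕ}
    {cls : ℕ → ℕ → ℕ → ℕ → Bool} (h : chk k D Fs dir cls = true) {s t σ S : ℕ} (hs : s < k)
    (ht : t < k) (hσ : σ < 3) (hS : S < 2 ^ D) :
    cheapOk D dir s t σ S = true ∧ cellOk Fs dir cls s t σ S = true := by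
  unfold chk at h
  rw [Bool.and_eq_true] at h
  have h1 := List.all_eq_true.1 h.2 s (List.mem_range.2 hs)
  have h2 := List.all_eq_true.1 h1 t (List.mem_range.2 ht)
  have h3 := List.all_eq_true.1 h2 σ (List.mem_range.2 hσ)
  have h4 := List.all_eq_true.1 h3 S (List.mem_range.2 hS)
  rwa [Bool.and_eq_true] at h4

end K4

end Pool.Agent.BicliqueHalf
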