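import Mathlib
import Pool.Agent.Lib.MP_12ff4f_co.K4.Cells

set_option autoImplicit false

/-!
# From the check of a class to a biclique partition
-/

namespace Pool.Agent.BicliqueHalf

open Finset

namespace K4

variable {D m : ℕ}

theorem eq_or_xor {a b e : ℕ} (h : ∀ i, i ≠ e → a.testBit i = b.testBit i) :
    b = a ∨ b = a ^^^ 2 ^ e := by
  by_cases he : a.testBit e = b.testBit e
  · left
    apply Nat.eq_of_testBit_eq
    intro i
    by_cases hi : i = e
    · rw [hi]; exact he.symm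
    · exact (h i hi).symm
  · right
    apply Nat.eq_of_testBit_eq
    intro i
    rw [Nat.testBit_xor, Nat.testBit_two_pow]
    by_cases hi : i = e
    · subst hi
      simp only [decide_true, Bool.xor_true]
      cases ha : a.testBit i <;> cases hb : b.testBit i <;> simp_all
    · rw [h i hi]
      have h2 : decide (e = i) = false := decide_eq_false (fun h => hi h.symm)
      rw [h2, Bool.xor_false]

theorem ind_bool (b : Bool) : ind (b = true) = b.toNat := by
  cases b
  · exact ind_neg (by simp)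
  · exact ind_pos rfl

theorem cheapOk_symm {dir : ℕ → ℕ → ℕ → ℕ → ℕ} {s t σ S : ℕ}
    (h : cheapOk D dir s t σ S = true) : dir t s (sw σ) S = dir s t σ S := by
  unfold cheapOk at h
  rw [Bool.and_eq_true] at h
  exact Nat.beq_eq ▸ h.1

theorem cheapOk_cases {dir : ℕ → ℕ → ℕ → ℕ → ℕ} {s t σ S : ℕ}
    (h : cheapOk D dir s t σ S = true) :
    dir s t σ S = 0 ∨
    (∃ e, e < D ∧ dir s t σ S = e + 1 ∧ dir s t σ (S ^^^ 2 ^ e) = e + 1 ∧
      ¬ (s = t ∧ σ = 0 ∧ (S = 0 ∨ S = 2 ^ e))) ∨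
    (dir s t σ S = D + 1 ∧ dir s t 0 S = D + 1 ∧ dir s t 1 S = D + 1 ∧ dir s t 2 S = D + 1 ∧
      ¬ (s = t ∧ S = 0)) := by
  unfold cheapOk at h
  simp only [Bool.and_eq_true, Bool.or_eq_true, Nat.beq_eq, Nat.ble_eq, Bool.not_eq_true',
    Bool.and_eq_false_iff, Bool.or_eq_false_iff] at h
  obtain ⟨-, h⟩ := h
  rcases Nat.eq_zero_or_pos (dir s t σ S) with h0 | h0
  · exact Or.inl h0
  right
  rcases h with h | h | h
  · omega
  · left
    obtain ⟨h1, h2, h3⟩ := h
    refine ⟨dir s t σ S - 1, by omega, by omega, by omega, ?_⟩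
    rintro ⟨a1, a2, a3⟩
    have hb : ∀ a b : ℕ, a = b → Nat.beq a b = false → False := by
      intro a b hab hf
      rw [hab, Nat.beq_refl] at hf
      cases hf
    rcases h3 with h3 | h3 | ⟨h3, h4⟩
    · exact hb _ _ a1 h3
    · exact hb _ _ a2 h3
    · rcases a3 with a3 | a3
      · exact hb _ _ a3 h3
      · exact hb _ _ a3 h4
  · right
    obtain ⟨h1, ⟨h2, h3, h4⟩, h5⟩ := h
    refine ⟨h1, h2, h3, h4, ?_⟩
    rintro ⟨a1, a2⟩
    have hb : ∀ a b : ℕ, a = b → Nat.beq a b = false → False := by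
      intro a b hab hf
      rw [hab, Nat.beq_refl] at hf
      cases hf
    rcases h5 with h5 | h5
    · exact hb _ _ a1 h5
    · exact hb _ _ a2 h5

/-- the pairs in the cheap direction `e + 1` -/
theorem rep_dir {k : ℕ} {dir : ℕ → ℕ → ℕ → ℕ → ℕ}
    (h : ∀ s t σ S, s < k → t < k → σ < 3 → S < 2 ^ D → cheapOk D dir s t σ S = true)
    (e : ℕ) (he : e < D + 1) :
    Rep1 (fun x y : Vx (Fin k) (Fin (D + 1)) m =>
      ind (dir x.1 y.1 (sg x.2 y.2) (msk x.2 y.2) = e + 1)) (k * m ^ D) := by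
  have h' : ∀ x y : Vx (Fin k) (Fin (D + 1)) m,
      cheapOk D dir x.1 y.1 (sg x.2 y.2) (msk x.2 y.2) = true :=
    fun x y => h _ _ _ _ x.1.isLt y.1.isLt (sg_lt _ _) (msk_lt _ _)
  have hsymm : ∀ x y : Vx (Fin k) (Fin (D + 1)) m,
      dir x.1 y.1 (sg x.2 y.2) (msk x.2 y.2) = e + 1 →
      dir y.1 x.1 (sg y.2 x.2) (msk y.2 x.2) = e + 1 := by
    intro x y hxy
    rw [sg_comm, msk_comm, cheapOk_symm (h' x y), hxy]
  rcases Nat.lt_or_ge e D with heD | heD
  · -- unsigned direction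
    have hrep := Rep1.inv (T := Fin k) (Ax := Fin (D + 1)) (m := m) (Fin.succ ⟨e, heD⟩)
      (fun x y => dir x.1 y.1 (sg x.2 y.2) (msk x.2 y.2) = e + 1) hsymm ?_ ?_
    · rw [Fintype.card_fin, Fintype.card_fin, Nat.add_sub_cancel] at hrep
      exact hrep
    · intro x y x' y' hx1 hx2 hy1 hy2 hR
      have h0 : (0 : Fin (D + 1)) ≠ Fin.succ ⟨e, heD⟩ := (Fin.succ_ne_zero _).symm
      have hsg : sg x'.2 y'.2 = sg x.2 y.2 := by
        unfold sg
        rw [hx2 0 h0, hy2 0 h0]
      have hmk : msk x'.2 y'.2 = msk x.2 y.2 ∨ msk x'.2 y'.2 = msk x.2 y.2 ^^^ 2 ^ e := by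
        apply eq_or_xor
        intro i hi
        rcases Nat.lt_or_ge i D with hiD | hiD
        · have h1 : Fin.succ (⟨i, hiD⟩ : Fin D) ≠ Fin.succ ⟨e, heD⟩ := by
            intro h2
            exact hi (congrArg Fin.val (Fin.succ_injective _ h2))
          have h3 := testBit_msk x.2 y.2 ⟨i, hiD⟩
          have h4 := testBit_msk x'.2 y'.2 ⟨i, hiD⟩
          simp only at h3 h4
          rw [h3, h4, hx2 _ h1, hy2 _ h1]
        · rw [testBit_msk_ge _ _ _ hiD, testBit_msk_ge _ _ _ hiD]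
      rw [← hx1, ← hy1, hsg]
      rcases cheapOk_cases (h' x y) with h1 | ⟨e', h1, h2, h3, h4⟩ | ⟨h1, -⟩
      · omega
      · have h5 : e' = e := by omega
        subst h5
        rcases hmk with h6 | h6
        · rw [h6]; exact hR
        · rw [h6]; exact h3
      · omega
    · intro x y hR hcon
      obtain ⟨hc1, hc2⟩ := hcon
      have h0 : (0 : Fin (D + 1)) ≠ Fin.succ ⟨e, heD⟩ := (Fin.succ_ne_zero _).symm
      have hsg : sg x.2 y.2 = 0 := (sg_eq_zero _ _).2 (hc2 0 h0)
      have hmk : msk x.2 y.2 = 0 ∨ msk x.2 y.2 = 0 ^^^ 2 ^ e := by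
        apply eq_or_xor
        intro i hi
        rw [Nat.zero_testBit]
        rcases Nat.lt_or_ge i D with hiD | hiD
        · have h1 : Fin.succ (⟨i, hiD⟩ : Fin D) ≠ Fin.succ ⟨e, heD⟩ := by
            intro h2
            exact hi (congrArg Fin.val (Fin.succ_injective _ h2))
          have h3 := testBit_msk x.2 y.2 ⟨i, hiD⟩
          simp only at h3
          rw [h3, hc2 _ h1]
          simp
        · rw [testBit_msk_ge _ _ _ hiD]
      rw [Nat.zero_xor] at hmk
      rcases cheapOk_cases (h' x y) with h1 | ⟨e', h1, h2, h3, h4⟩ | ⟨h1, -⟩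
      · omega
      · have h5 : e' = e := by omega
        subst h5
        exact h4 ⟨congrArg Fin.val hc1, hsg, hmk⟩
      · omega
  · -- signed direction
    have heq : e = D := by omega
    subst heq
    have hrep := Rep1.inv (T := Fin k) (Ax := Fin (e + 1)) (m := m) 0
      (fun x y => dir x.1 y.1 (sg x.2 y.2) (msk x.2 y.2) = e + 1) hsymm ?_ ?_
    · rw [Fintype.card_fin, Fintype.card_fin, Nat.add_sub_cancel] at hrep
      exact hrep
    · intro x y x' y' hx1 hx2 hy1 hy2 hR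
      have hmk : msk x'.2 y'.2 = msk x.2 y.2 := by
        apply eq_of_testBit (D := e)
        · intro i
          rw [testBit_msk, testBit_msk, hx2 _ (Fin.succ_ne_zero _), hy2 _ (Fin.succ_ne_zero _)]
        · intro i hi
          rw [testBit_msk_ge _ _ _ hi, testBit_msk_ge _ _ _ hi]
      rw [← hx1, ← hy1, hmk]
      rcases cheapOk_cases (h' x y) with h1 | ⟨e', h1, h2, h3, h4⟩ | ⟨h1, h2, h3, h4, -⟩
      · omega
      · omega
      · have h5 := sg_lt x'.2 y'.2
        have h6 : sg x'.2 y'.2 = 0 ∨ sg x'.2 y'.2 = 1 ∨ sg x'.2 y'.2 = 2 := by omega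
        rcases h6 with h6 | h6 | h6
        · rw [h6]; exact h2
        · rw [h6]; exact h3
        · rw [h6]; exact h4
    · intro x y hR hcon
      obtain ⟨hc1, hc2⟩ := hcon
      have hmk : msk x.2 y.2 = 0 := by
        apply eq_of_testBit (D := e)
        · intro i
          rw [testBit_msk, hc2 _ (Fin.succ_ne_zero _), Nat.zero_testBit]
          simp
        · intro i hi
          rw [testBit_msk_ge _ _ _ hi, Nat.zero_testBit]
      rcases cheapOk_cases (h' x y) with h1 | ⟨e', h1, h2, h3, h4⟩ | ⟨h1, h2, h3, h4, h5⟩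
      · omega
      · omega
      · exact h5 ⟨congrArg Fin.val hc1, hmk⟩

theorem sum_dir (n d : ℕ) (h : d ≤ n) :
    ∑ e ∈ range n, ind (d = e + 1) = bif Nat.beq d 0 then 0 else 1 := by
  rcases Nat.eq_zero_or_pos d with h0 | h0
  · subst h0
    rw [Nat.beq_refl, cond_true]
    exact Finset.sum_eq_zero fun e _ => ind_neg (by omega)
  · have h1 : Nat.beq d 0 = false := by
      cases hb : Nat.beq d 0
      · rfl
      · have := Nat.eq_of_beq_eq_true hb
        omega
    rw [h1, cond_false, Finset.sum_eq_single (d - 1)]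
    · exact ind_pos (by omega)
    · intro e _ he
      exact ind_neg (by omega)
    · intro he
      exact absurd (mem_range.2 (by omega)) he

/-- **From the check to the partition.** -/
theorem rep_class {k : ℕ} {Fs : List Fam} {dir : ℕ → ℕ → ℕ → ℕ → ℕ}
    {cls : ℕ → ℕ → ℕ → ℕ → Bool} (h : chk k D Fs dir cls = true) :
    Rep1 (fun x y : Vx (Fin k) (Fin (D + 1)) m =>
      ind (cls x.1 y.1 (sg x.2 y.2) (msk x.2 y.2) = true))
      (Fs.length * m ^ (D + 1) + (D + 1) * (k * m ^ D)) := by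
  have hF : ∀ F ∈ Fs, F.ok = true := by
    unfold chk at h
    rw [Bool.and_eq_true] at h
    exact List.all_eq_true.1 h.1
  have h1 : Rep1 (fun x y : Vx (Fin k) (Fin (D + 1)) m =>
      (Fs.map fun F => (ind (F.c1 x.1 y.1 (sg x.2 y.2) (msk x.2 y.2) = true) +
        ind (F.c1 y.1 x.1 (sg y.2 x.2) (msk y.2 x.2) = true))).sum)
      (Fs.length * m ^ (D + 1)) :=
    Rep1.listSum Fs (fun F (x y : Vx (Fin k) (Fin (D + 1)) m) => ind (F.c1 x.1 y.1 (sg x.2 y.2) (msk x.2 y.2) = true) +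
        ind (F.c1 y.1 x.1 (sg y.2 x.2) (msk y.2 x.2) = true)) (m ^ (D + 1))
      fun F hm => rep_fam (hF F hm)
  have h2 : Rep1 (fun x y : Vx (Fin k) (Fin (D + 1)) m =>
      ∑ e ∈ range (D + 1), ind (dir x.1 y.1 (sg x.2 y.2) (msk x.2 y.2) = e + 1))
      (∑ _e ∈ range (D + 1), k * m ^ D) :=
    Rep1.sum _ _ _ fun e he => rep_dir
      (fun s t σ S a1 a2 a3 a4 => (chk_cell h a1 a2 a3 a4).1) e (mem_range.1 he)
  have h3 := h1.add h2
  rw [Finset.sum_const, card_range, smul_eq_mul] at h3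
  refine h3.congr ?_
  intro x y hxy
  beta_reduce
  obtain ⟨h4, h5⟩ := chk_cell h x.1.isLt y.1.isLt (sg_lt x.2 y.2) (msk_lt x.2 y.2)
  have h6 : dir x.1 y.1 (sg x.2 y.2) (msk x.2 y.2) ≤ D + 1 := by
    rcases cheapOk_cases h4 with h1 | ⟨e', h1, h2, h3, h4⟩ | ⟨h1, h2, h3, h4, h5⟩ <;> omega
  rw [sum_dir _ _ h6, ind_bool]
  unfold cellOk at h5
  rw [Bool.or_eq_true] at h5
  rcases h5 with h5 | h5
  · exfalso
    simp only [Bool.and_eq_true, Nat.beq_eq] at h5
    obtain ⟨a1, a2, a3⟩ := h5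
    apply hxy
    refine Prod.ext (Fin.ext a1) ?_
    funext i
    refine Fin.cases ((sg_eq_zero _ _).1 a2) (fun j => ?_) i
    have a4 := testBit_msk x.2 y.2 j
    rw [a3, Nat.zero_testBit] at a4
    simpa using a4
  · have h7 := Nat.eq_of_beq_eq_true h5
    rw [← h7]
    congr 2
    refine List.map_congr_left fun F _ => ?_
    rw [ind_bool, ind_bool, sg_comm x.2 y.2, msk_comm y.2 x.2]

end K4

end Pool.Agent.BicliqueHalf
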