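import Mathlib
import Pool.Agent.Lib.MP_12ff4f_co.K4.Classes
import Pool.Agent.Lib.MP_12ff4f_co.K4.Defs

set_option autoImplicit false

/-!
# The partition of `E(K_4) x E(K_V)` from the six classes
-/

namespace Pool.Agent.BicliqueHalf

open Finset Filter Topology

namespace K4

theorem exUnique_of_sum {ι : Type} [Fintype ι] (R : ι → Prop) (h : ∑ i, ind (R i) = 1) :
    ∃! i, R i := by
  classical
  have h1 : (univ.filter R).card = 1 := by
    rw [Finset.card_filter]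
    refine Eq.trans (Finset.sum_congr rfl fun i _ => ?_) h
    by_cases hi : R i
    · rw [if_pos hi, ind_pos hi]
    · rw [if_neg hi, ind_neg hi]
  rw [Finset.card_eq_one] at h1
  obtain ⟨a, ha⟩ := h1
  have ha' : ∀ i, R i ↔ i = a := by
    intro i
    rw [← Finset.mem_singleton, ← ha, Finset.mem_filter]
    simp
  exact ⟨a, (ha' a).2 rfl, fun i hi => (ha' i).1 hi⟩

theorem ind_mul' (P Q : Prop) : ind P * ind Q = ind (P ∧ Q) := by
  by_cases P <;> by_cases Q <;> simp_all [ind]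

theorem hasPartition_of_rep {p n k : ℕ} {V : Type} (e : Fin n ↪ V)
    (h : Rep2 (fun (_ _ : Fin p) (_ _ : V) => 1) k) :
    ∃ k', k' ≤ k ∧ BicliqueK4.HasPartition p n k' := by
  classical
  obtain ⟨ι, i1, A, B, C, D, h1, h2, h3, h4⟩ := h
  let s : (ι → Set V) → ι → Finset (Fin n) := fun A i => univ.filter fun x => e x ∈ A i
  let r : (ι → Set (Fin p)) → ι → Finset (Fin p) := fun A i => univ.filter fun x => x ∈ A i
  let J := {i : ι // (r A i).Nonempty ∧ (r B i).Nonempty ∧ (s C i).Nonempty ∧ (s D i).Nonempty}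
  have hs : ∀ (A : ι → Set V) i x, x ∈ s A i ↔ e x ∈ A i := by
    intro A i x; simp [s]
  have hr : ∀ (A : ι → Set (Fin p)) i x, x ∈ r A i ↔ x ∈ A i := by
    intro A i x; simp [r]
  let φ : Fin (Fintype.card J) ≃ J := (Fintype.equivFin J).symm
  have hd : ∀ (A B : ι → Set V), (∀ i, Disjoint (A i) (B i)) → ∀ i, Disjoint (s A i) (s B i) := by
    intro A B h i
    rw [Finset.disjoint_left]
    intro x hx hy
    rw [hs] at hx hy
    exact Set.disjoint_left.1 (h i) hx hy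
  have hd' : ∀ (A B : ι → Set (Fin p)), (∀ i, Disjoint (A i) (B i)) →
      ∀ i, Disjoint (r A i) (r B i) := by
    intro A B h i
    rw [Finset.disjoint_left]
    intro x hx hy
    rw [hr] at hx hy
    exact Set.disjoint_left.1 (h i) hx hy
  refine ⟨Fintype.card J, (Fintype.card_subtype_le _).trans h1, fun i => r A (φ i).1,
    fun i => r B (φ i).1, fun i => s C (φ i).1, fun i => s D (φ i).1, ?_, ?_⟩
  · intro i
    obtain ⟨h5, h6, h7, h8⟩ := (φ i).2
    exact ⟨h5, h6, hd' A B h2 _, h7, h8, hd C D h3 _⟩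
  · intro x y u v hxy huv
    have h5 := h4 x y (e u) (e v) hxy (fun h => huv (e.injective h))
    simp only [ind_mul'] at h5
    obtain ⟨i, hi, hu⟩ := exUnique_of_sum _ h5
    have hne : (r A i).Nonempty ∧ (r B i).Nonempty ∧ (s C i).Nonempty ∧ (s D i).Nonempty := by
      obtain ⟨h6, h7⟩ := hi
      refine ⟨?_, ?_, ?_, ?_⟩
      · rcases h6 with ⟨a, _⟩ | ⟨_, a⟩
        · exact ⟨x, (hr _ _ _).2 a⟩
        · exact ⟨y, (hr _ _ _).2 a⟩
      · rcases h6 with ⟨_, a⟩ | ⟨a, _⟩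
        · exact ⟨y, (hr _ _ _).2 a⟩
        · exact ⟨x, (hr _ _ _).2 a⟩
      · rcases h7 with ⟨a, _⟩ | ⟨_, a⟩
        · exact ⟨u, (hs _ _ _).2 a⟩
        · exact ⟨v, (hs _ _ _).2 a⟩
      · rcases h7 with ⟨_, a⟩ | ⟨a, _⟩
        · exact ⟨v, (hs _ _ _).2 a⟩
        · exact ⟨u, (hs _ _ _).2 a⟩
    refine ⟨φ.symm ⟨i, hne⟩, ?_, ?_⟩
    · simp only [Equiv.apply_symm_apply, hs, hr]
      exact hi
    · intro j hj
      simp only [hs, hr] at hj
      rw [Equiv.eq_symm_apply]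
      exact Subtype.ext (hu _ hj)

/-- the side of `x` in the `i`-th 4-cycle of `K_4` -/
def side (i : Fin 3) (x : Fin 4) : Bool := x = 0 || x.val = i.val + 1

/-- the `i`-th 4-cycle of `K_4` -/
theorem rep_cycle (i : Fin 3) : Rep1 (fun x y : Fin 4 => ind (side i x ≠ side i y)) 1 := by
  refine ⟨Unit, inferInstance, fun _ => {x | side i x = true}, fun _ => {x | side i x = false},
    by simp, ?_, ?_⟩
  · intro _
    rw [Set.disjoint_left]
    intro x hx hy
    rw [Set.mem_ofPred_eq] at hx hy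
    rw [hx] at hy
    cases hy
  · intro x y _
    rw [Fintype.sum_unique]
    apply ind_congr
    unfold Cv
    simp only [Set.mem_ofPred_eq]
    cases side i x <;> cases side i y <;> simp

/-- the `i`-th perfect matching of `K_4` -/
theorem rep_match (i : Fin 3) : Rep1 (fun x y : Fin 4 => ind (side i x = side i y)) 2 := by
  refine ⟨Bool, inferInstance, fun b => {x | (b = true ∧ x.val = 0) ∨
    (b = false ∧ x.val = (i.val + 1) % 3 + 1)},
    fun b => {x | (b = true ∧ x.val = i.val + 1) ∨ (b = false ∧ x.val = (i.val + 2) % 3 + 1)},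
    by simp, ?_, ?_⟩
  · intro b
    rw [Set.disjoint_left]
    rintro x (⟨h1, h2⟩ | ⟨h1, h2⟩) (⟨h3, h4⟩ | ⟨h3, h4⟩)
    · omega
    · rw [h1] at h3; cases h3
    · rw [h1] at h3; cases h3
    · omega
  · intro x y hxy
    rw [Fintype.sum_bool]
    unfold Cv
    simp only [Set.mem_ofPred_eq]
    fin_cases i <;> fin_cases x <;> fin_cases y <;> simp_all [ind, side]

/-- exactly one matching contains a given edge -/
theorem one_match (x y : Fin 4) (h : x ≠ y) : ∃ j : Fin 3, ∀ i : Fin 3,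
    (side i x = side i y ↔ i = j) := by
  revert x y
  decide

variable {D m : ℕ}

/-- **The partition of `E(K_4) x E(K_V)`.** -/
theorem rep_total {k : ℕ} (col : ℕ → ℕ → ℕ → ℕ → ℕ) (hcol : ∀ s t σ S, col s t σ S < 4)
    (a b : ℕ)
    (hH : ∀ i : Fin 3, Rep1 (fun x y : Vx (Fin k) (Fin (D + 1)) m =>
      ind (Nat.beq (col x.1 y.1 (sg x.2 y.2) (msk x.2 y.2)) i = true)) a)
    (hG : ∀ i : Fin 3, Rep1 (fun x y : Vx (Fin k) (Fin (D + 1)) m =>
      ind ((Nat.beq (col x.1 y.1 (sg x.2 y.2) (msk x.2 y.2)) i ||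
        Nat.beq (col x.1 y.1 (sg x.2 y.2) (msk x.2 y.2)) 3) = true)) b) :
    Rep2 (fun (_ _ : Fin 4) (_ _ : Vx (Fin k) (Fin (D + 1)) m) => 1) (3 * (a + 2 * b)) := by
  have h := Rep2.sum (univ : Finset (Fin 3)) (fun i (x y : Fin 4)
    (u v : Vx (Fin k) (Fin (D + 1)) m) =>
      ind (side i x ≠ side i y) *
        ind (Nat.beq (col u.1 v.1 (sg u.2 v.2) (msk u.2 v.2)) i = true) +
      ind (side i x = side i y) *
        ind ((Nat.beq (col u.1 v.1 (sg u.2 v.2) (msk u.2 v.2)) i ||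
          Nat.beq (col u.1 v.1 (sg u.2 v.2) (msk u.2 v.2)) 3) = true))
    (fun _ => 1 * a + 2 * b) (fun i _ => (Rep2.mul (rep_cycle i) (hH i)).add
      (Rep2.mul (rep_match i) (hG i)))
  rw [Finset.sum_const, Finset.card_univ, Fintype.card_fin, smul_eq_mul, one_mul] at h
  refine h.congr ?_
  intro x y u v hxy _
  obtain ⟨j, hj⟩ := one_match x y hxy
  have hc := hcol u.1 v.1 (sg u.2 v.2) (msk u.2 v.2)
  generalize col u.1 v.1 (sg u.2 v.2) (msk u.2 v.2) = c at hc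
  have h1 : ∀ i : Fin 3, ind (side i x = side i y) = ind (i = j) :=
    fun i => ind_congr (hj i)
  have h2 : ∀ i : Fin 3, ind (side i x ≠ side i y) = ind (i ≠ j) :=
    fun i => ind_congr (not_congr (hj i))
  simp only [h1, h2]
  interval_cases c <;> fin_cases j <;> simp [Fin.sum_univ_three, ind, Nat.beq]

theorem g_le {k n : ℕ} (col : ℕ → ℕ → ℕ → ℕ → ℕ) (hcol : ∀ s t σ S, col s t σ S < 4)
    (a b : ℕ)
    (hH : ∀ i : Fin 3, Rep1 (fun x y : Vx (Fin k) (Fin (D + 1)) m =>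
      ind (Nat.beq (col x.1 y.1 (sg x.2 y.2) (msk x.2 y.2)) i = true)) a)
    (hG : ∀ i : Fin 3, Rep1 (fun x y : Vx (Fin k) (Fin (D + 1)) m =>
      ind ((Nat.beq (col x.1 y.1 (sg x.2 y.2) (msk x.2 y.2)) i ||
        Nat.beq (col x.1 y.1 (sg x.2 y.2) (msk x.2 y.2)) 3) = true)) b)
    (h : n ≤ k * m ^ (D + 1)) : BicliqueK4.g 4 n ≤ 3 * (a + 2 * b) := by
  have hc : Fintype.card (Fin n) ≤ Fintype.card (Vx (Fin k) (Fin (D + 1)) m) := by
    rw [Fintype.card_fin, Fintype.card_prod, Fintype.card_fun, Fintype.card_fin,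
      Fintype.card_fin, Fintype.card_fin]
    exact h
  obtain ⟨e⟩ := Function.Embedding.nonempty_of_card_le hc
  obtain ⟨k', h1, h2⟩ := hasPartition_of_rep e (rep_total (D := D) (m := m) col hcol a b hH hG)
  exact (Nat.sInf_le h2).trans h1

/-- the certificate: colours, families and cheap directions of the six classes -/
structure Cert (k D : ℕ) where
  col : ℕ → ℕ → ℕ → ℕ → ℕ
  hcol : ∀ s t σ S, col s t σ S < 4
  FH : Fin 3 → List Fam
  dH : Fin 3 → ℕ → ℕ → ℕ → ℕ → ℕ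
  FG : Fin 3 → List Fam
  dG : Fin 3 → ℕ → ℕ → ℕ → ℕ → ℕ
  lH : ∀ i, (FH i).length = 2
  lG : ∀ i, (FG i).length = 1
  cH : ∀ i : Fin 3, chk k D (FH i) (dH i) (fun s t σ S => Nat.beq (col s t σ S) i) = true
  cG : ∀ i : Fin 3, chk k D (FG i) (dG i)
    (fun s t σ S => Nat.beq (col s t σ S) i || Nat.beq (col s t σ S) 3) = true

theorem Cert.bound {k : ℕ} (C : Cert k D) {n : ℕ} (h : n ≤ k * m ^ (D + 1)) :
    BicliqueK4.g 4 n ≤ 12 * m ^ (D + 1) + 9 * ((D + 1) * (k * m ^ D)) := by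
  refine (g_le (m := m) C.col C.hcol (2 * m ^ (D + 1) + (D + 1) * (k * m ^ D))
    (1 * m ^ (D + 1) + (D + 1) * (k * m ^ D)) (fun i => ?_) (fun i => ?_) h).trans
    (le_of_eq (by ring))
  · have := rep_class (m := m) (C.cH i)
    rw [C.lH] at this
    exact this
  · have := rep_class (m := m) (C.cG i)
    rw [C.lG] at this
    exact this

theorem tendsto_cost (E c : ℕ) :
    Tendsto (fun m : ℕ => (12 * (m : ℝ) ^ (E + 1) + c * (m : ℝ) ^ E) /
      (5 * ((m : ℝ) - 1) ^ (E + 1))) atTop (𝓝 (12 / 5)) := by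
  have h1 : Tendsto (fun m : ℕ => (m : ℝ) / ((m : ℝ) + (-1))) atTop (𝓝 1) :=
    tendsto_natCast_div_add_atTop (-1 : ℝ)
  have h2 : Tendsto (fun m : ℕ => (c : ℝ) / (m : ℝ)) atTop (𝓝 0) :=
    tendsto_const_div_atTop_nhds_zero_nat _
  have h3 : Tendsto (fun m : ℕ => (12 + (c : ℝ) / (m : ℝ)) *
      ((m : ℝ) / ((m : ℝ) + (-1))) ^ (E + 1) / 5) atTop
      (𝓝 ((12 + 0) * 1 ^ (E + 1) / 5)) :=
    ((tendsto_const_nhds.add h2).mul (h1.pow _)).div_const _
  have e : ((12 : ℝ) + 0) * 1 ^ (E + 1) / 5 = 12 / 5 := by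
    rw [one_pow]; norm_num
  rw [e] at h3
  refine h3.congr' ?_
  filter_upwards [eventually_ge_atTop 2] with m hm
  have hm1 : (m : ℝ) - 1 ≠ 0 := by
    have : (2 : ℝ) ≤ m := by exact_mod_cast hm
    intro h; linarith
  have hm0 : (m : ℝ) ≠ 0 := by
    have : (2 : ℝ) ≤ m := by exact_mod_cast hm
    intro h; linarith
  rw [← sub_eq_add_neg, div_pow, pow_succ' (m : ℝ) E]
  field_simp

/-- the upper bound for all large `n` -/
theorem Cert.upper (C : Cert 5 D) (b : ℝ) (hb : 12 / 5 < b) :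
    ∀ᶠ n : ℕ in atTop, (BicliqueK4.g 4 n : ℝ) / (n : ℝ) < b := by
  have h1 := (tendsto_order.1 (tendsto_cost D (45 * (D + 1)))).2 b hb
  rw [eventually_atTop] at h1
  obtain ⟨M, hM⟩ := h1
  filter_upwards [eventually_ge_atTop (5 * (M + 2) ^ (D + 1) + 1)] with n hn
  have hex : ∃ m, n ≤ 5 * m ^ (D + 1) := by
    refine ⟨n, ?_⟩
    have hn1 : 1 ≤ n := by omega
    calc n = 1 * n ^ 1 := by ring
      _ ≤ 5 * n ^ (D + 1) :=
        Nat.mul_le_mul (by norm_num) (Nat.pow_le_pow_right hn1 (by omega))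
  classical
  let m := Nat.find hex
  have hm : n ≤ 5 * m ^ (D + 1) := Nat.find_spec hex
  have hmM : M + 2 < m := by
    by_contra hcon
    push Not at hcon
    have := Nat.mul_le_mul_left 5 (Nat.pow_le_pow_left hcon (D + 1))
    omega
  have hm' : 5 * (m - 1) ^ (D + 1) < n := by
    by_contra hcon
    push Not at hcon
    exact Nat.find_min hex (show m - 1 < m by omega) hcon
  have hg := C.bound hm
  have hlt := hM m (by omega)
  refine lt_of_le_of_lt ?_ hlt
  have hm1 : ((m - 1 : ℕ) : ℝ) = (m : ℝ) - 1 := by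
    rw [Nat.cast_sub (by omega)]; simp
  have hpos : (0 : ℝ) < (m : ℝ) - 1 := by
    have : ((M + 2 : ℕ) : ℝ) < m := by exact_mod_cast hmM
    push_cast at this
    have h0 : (0 : ℝ) ≤ M := Nat.cast_nonneg M
    linarith
  have hn2 : (5 : ℝ) * ((m : ℝ) - 1) ^ (D + 1) ≤ n := by
    rw [← hm1]; exact_mod_cast hm'.le
  have hden : (0 : ℝ) < 5 * ((m : ℝ) - 1) ^ (D + 1) := by positivity
  have hg' : (BicliqueK4.g 4 n : ℝ) ≤
      12 * (m : ℝ) ^ (D + 1) + ((45 * (D + 1) : ℕ) : ℝ) * (m : ℝ) ^ D := by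
    have h2 : 12 * m ^ (D + 1) + 9 * ((D + 1) * (5 * m ^ D)) =
        12 * m ^ (D + 1) + 45 * (D + 1) * m ^ D := by ring
    rw [h2] at hg
    exact_mod_cast hg
  refine div_le_div₀ (by positivity) hg' hden hn2

end K4

end Pool.Agent.BicliqueHalf
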