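import Mathlib
import Pool.Agent.Lib.MP_12ff4f_co.K4.Data

set_option autoImplicit false

/-!
# The upper bound `(12/5 + o(1)) n` for partitions of `E(K_4) x E(K_n)`
-/

namespace Pool.Agent.BicliqueHalf

open Finset Filter Topology

namespace K4

/-- at most `12 m^7 + 315 m^6` blocks suffice for every `n ≤ 5 m^7` -/
theorem partition_le {m n : ℕ} (h : n ≤ 5 * m ^ 7) :
    ∃ k, k ≤ 12 * m ^ 7 + 315 * m ^ 6 ∧ BicliqueK4.HasPartition 4 n k := by
  have hc : Fintype.card (Fin n) ≤ Fintype.card (Vx (Fin 5) (Fin (6 + 1)) m) := by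
    rw [Fintype.card_fin, Fintype.card_prod, Fintype.card_fun, Fintype.card_fin,
      Fintype.card_fin, Fintype.card_fin]
    exact h
  obtain ⟨e⟩ := Function.Embedding.nonempty_of_card_le hc
  have h1 : Rep2 (fun (_ _ : Fin 4) (_ _ : Vx (Fin 5) (Fin (6 + 1)) m) => 1)
      (3 * ((2 * m ^ (6 + 1) + (6 + 1) * (5 * m ^ 6)) +
        2 * (1 * m ^ (6 + 1) + (6 + 1) * (5 * m ^ 6)))) := by
    refine rep_total cert.col cert.hcol _ _ (fun i => ?_) (fun i => ?_)
    · have := rep_class (m := m) (cert.cH i)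
      rw [cert.lH] at this
      exact this
    · have := rep_class (m := m) (cert.cG i)
      rw [cert.lG] at this
      exact this
  obtain ⟨k, h2, h3⟩ := hasPartition_of_rep e h1
  exact ⟨k, h2.trans (le_of_eq (by ring)), h3⟩

theorem final (ε : ℝ) (hε : 0 < ε) :
    ∀ᶠ n : ℕ in atTop, ∃ k : ℕ, (k : ℝ) ≤ (12 / 5 + ε) * n ∧
      BicliqueK4.HasPartition 4 n k := by
  filter_upwards [cert.upper (12 / 5 + ε) (by linarith), eventually_ge_atTop 1] with n hn hn1
  have hne : {k | BicliqueK4.HasPartition 4 n k}.Nonempty := by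
    have h1 : n ≤ 5 * n ^ 7 := by
      calc n = 1 * n ^ 1 := by ring
        _ ≤ 5 * n ^ 7 :=
          Nat.mul_le_mul (by norm_num) (Nat.pow_le_pow_right hn1 (by omega))
    obtain ⟨k, -, hk⟩ := partition_le h1
    exact ⟨k, hk⟩
  refine ⟨BicliqueK4.g 4 n, ?_, Nat.sInf_mem hne⟩
  have hn0 : (0 : ℝ) < n := by exact_mod_cast hn1
  rw [div_lt_iff₀ hn0] at hn
  exact hn.le

end K4

end Pool.Agent.BicliqueHalf
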