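import Mathlib
import Pool.Agent.Lib.MP_12ff4f_co.K4.Assembly

set_option autoImplicit false

/-!
# The generic machine for `E(K_p) x E(K_n)`, `p` fixed

A colour is a partition of `E(K_p)` into bicliques from a list of `nb` bicliques; every cell gets a
colour; for every biclique `i` the class of the cells whose colour contains `i` is the union of
anchored families (main cells) and cheap cells.
-/

namespace Pool.Agent.BicliqueHalf

open Finset Filter Topology

namespace K4

variable {p k D nb N m : ℕ}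

/-- `x, y` lie on different sides of the biclique whose sides have the masks `a, b` -/
def cvB (a b x y : ℕ) : Bool :=
  (a.testBit x && b.testBit y) || (b.testBit x && a.testBit y)

theorem rep_cvB (a b : ℕ) (h : a &&& b = 0) :
    Rep1 (fun x y : Fin p => ind (cvB a b x y = true)) 1 := by
  refine ⟨Unit, inferInstance, fun _ => {x | a.testBit x = true}, fun _ => {x | b.testBit x = true},
    by simp, ?_, ?_⟩
  · intro _
    rw [Set.disjoint_left]
    intro x hx hy
    rw [Set.mem_ofPred_eq] at hx hy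
    have h1 := congrArg (fun n => n.testBit (x : ℕ)) h
    simp only [Nat.testBit_and, hx, hy, Nat.zero_testBit] at h1
    cases h1
  · intro x y _
    rw [Fintype.sum_unique]
    apply ind_congr
    unfold Cv cvB
    simp only [Set.mem_ofPred_eq, Bool.or_eq_true, Bool.and_eq_true]

/-- the certificate for `K_p` -/
structure GCert (p k D nb N : ℕ) where
  a : Fin nb → ℕ
  b : Fin nb → ℕ
  hab : ∀ i, a i &&& b i = 0
  L : ℕ
  col : ℕ → ℕ → ℕ → ℕ → ℕ
  hcol : ∀ s t σ S, col s t σ S < L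
  mem : ℕ → Fin nb → Bool
  hpart : ∀ c < L, ∀ x y : Fin p, x ≠ y →
    (∑ i : Fin nb, (mem c i && cvB (a i) (b i) x y).toNat) = 1
  F : Fin nb → List Fam
  d : Fin nb → ℕ → ℕ → ℕ → ℕ → ℕ
  hchk : ∀ i, chk k D (F i) (d i) (fun s t σ S => mem (col s t σ S) i) = true
  hN : ∑ i, (F i).length ≤ N

theorem GCert.rep (C : GCert p k D nb N) :
    Rep2 (fun (_ _ : Fin p) (_ _ : Vx (Fin k) (Fin (D + 1)) m) => 1)
      (N * m ^ (D + 1) + nb * ((D + 1) * (k * m ^ D))) := by
  have h := Rep2.sum (univ : Finset (Fin nb)) (fun i (x y : Fin p)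
    (u v : Vx (Fin k) (Fin (D + 1)) m) =>
      ind (cvB (C.a i) (C.b i) x y = true) *
        ind (C.mem (C.col u.1 v.1 (sg u.2 v.2) (msk u.2 v.2)) i = true))
    (fun i => 1 * ((C.F i).length * m ^ (D + 1) + (D + 1) * (k * m ^ D)))
    (fun i _ => Rep2.mul (rep_cvB _ _ (C.hab i)) (rep_class (C.hchk i)))
  have h2 : ∑ i : Fin nb, 1 * ((C.F i).length * m ^ (D + 1) + (D + 1) * (k * m ^ D)) ≤
      N * m ^ (D + 1) + nb * ((D + 1) * (k * m ^ D)) := by
    simp only [one_mul]
    rw [Finset.sum_add_distrib, ← Finset.sum_mul, Finset.sum_const, Finset.card_univ,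
      Fintype.card_fin, smul_eq_mul]
    exact Nat.add_le_add_right (Nat.mul_le_mul_right _ C.hN) _
  refine (h.mono h2).congr ?_
  intro x y u v hxy _
  refine Eq.trans (Finset.sum_congr rfl fun i _ => ?_)
    (C.hpart _ (C.hcol u.1 v.1 (sg u.2 v.2) (msk u.2 v.2)) x y hxy)
  rw [ind_mul', ← ind_bool]
  apply ind_congr
  rw [Bool.and_eq_true]
  exact and_comm

theorem GCert.partition (C : GCert p k D nb N) {n : ℕ} (h : n ≤ k * m ^ (D + 1)) :
    ∃ K, K ≤ N * m ^ (D + 1) + nb * ((D + 1) * (k * m ^ D)) ∧ BicliqueK4.HasPartition p n K := by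
  have hc : Fintype.card (Fin n) ≤ Fintype.card (Vx (Fin k) (Fin (D + 1)) m) := by
    rw [Fintype.card_fin, Fintype.card_prod, Fintype.card_fun, Fintype.card_fin,
      Fintype.card_fin, Fintype.card_fin]
    exact h
  obtain ⟨e⟩ := Function.Embedding.nonempty_of_card_le hc
  obtain ⟨K, h2, h3⟩ := hasPartition_of_rep e (C.rep (m := m))
  exact ⟨K, h2, h3⟩

theorem tendsto_costG (E c N k : ℕ) (hk : 0 < k) :
    Tendsto (fun m : ℕ => (N * (m : ℝ) ^ (E + 1) + c * (m : ℝ) ^ E) /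
      (k * ((m : ℝ) - 1) ^ (E + 1))) atTop (𝓝 (N / k)) := by
  have hk0 : (k : ℝ) ≠ 0 := by exact_mod_cast hk.ne'
  have h1 : Tendsto (fun m : ℕ => (m : ℝ) / ((m : ℝ) + (-1))) atTop (𝓝 1) :=
    tendsto_natCast_div_add_atTop (-1 : ℝ)
  have h2 : Tendsto (fun m : ℕ => (c : ℝ) / (m : ℝ)) atTop (𝓝 0) :=
    tendsto_const_div_atTop_nhds_zero_nat _
  have h3 : Tendsto (fun m : ℕ => (N + (c : ℝ) / (m : ℝ)) *
      ((m : ℝ) / ((m : ℝ) + (-1))) ^ (E + 1) / k) atTop
      (𝓝 (((N : ℝ) + 0) * 1 ^ (E + 1) / k)) :=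
    ((tendsto_const_nhds.add h2).mul (h1.pow _)).div_const _
  have e : ((N : ℝ) + 0) * 1 ^ (E + 1) / k = N / k := by
    rw [one_pow, add_zero, mul_one]
  rw [e] at h3
  refine h3.congr' ?_
  filter_upwards [eventually_ge_atTop 2] with m hm
  have hm1 : (m : ℝ) - 1 ≠ 0 := by
    have : (2 : ℝ) ≤ m := by exact_mod_cast hm
    intro h; linarith
  have hm0 : (m : ℝ) ≠ 0 := by
    have : (2 : ℝ) ≤ m := by exact_mod_cast hm
    intro h; linarith
  rw [← sub_eq_add_neg, div_pow, pow_succ' (m : ℝ) E]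
  field_simp

/-- **the upper bound of a certificate** -/
theorem GCert.upper (C : GCert p k D nb N) (hk : 0 < k) (ε : ℝ) (hε : 0 < ε) :
    ∀ᶠ n : ℕ in atTop, ∃ K : ℕ, (K : ℝ) ≤ ((N : ℝ) / k + ε) * n ∧
      BicliqueK4.HasPartition p n K := by
  have h1 := (tendsto_order.1 (tendsto_costG D (nb * ((D + 1) * k)) N k hk)).2
    ((N : ℝ) / k + ε) (by linarith)
  rw [eventually_atTop] at h1
  obtain ⟨M, hM⟩ := h1
  filter_upwards [eventually_ge_atTop (k * (M + 2) ^ (D + 1) + 1)] with n hn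
  have hex : ∃ m, n ≤ k * m ^ (D + 1) := by
    refine ⟨n, ?_⟩
    have hn1 : 1 ≤ n := by omega
    calc n = 1 * n ^ 1 := by ring
      _ ≤ k * n ^ (D + 1) :=
        Nat.mul_le_mul hk (Nat.pow_le_pow_right hn1 (by omega))
  classical
  let m := Nat.find hex
  have hm : n ≤ k * m ^ (D + 1) := Nat.find_spec hex
  have hmM : M + 2 < m := by
    by_contra hcon
    push Not at hcon
    have := Nat.mul_le_mul_left k (Nat.pow_le_pow_left hcon (D + 1))
    omega
  have hm' : k * (m - 1) ^ (D + 1) < n := by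
    by_contra hcon
    push Not at hcon
    exact Nat.find_min hex (show m - 1 < m by omega) hcon
  obtain ⟨K, hK, hK'⟩ := C.partition hm
  refine ⟨K, ?_, hK'⟩
  have hlt := hM m (by omega)
  have hm1 : ((m - 1 : ℕ) : ℝ) = (m : ℝ) - 1 := by
    rw [Nat.cast_sub (by omega)]; simp
  have hpos : (0 : ℝ) < (m : ℝ) - 1 := by
    have : ((M + 2 : ℕ) : ℝ) < m := by exact_mod_cast hmM
    push_cast at this
    have h0 : (0 : ℝ) ≤ M := Nat.cast_nonneg M
    linarith
  have hk0 : (0 : ℝ) < k := by exact_mod_cast hk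
  have hn2 : (k : ℝ) * ((m : ℝ) - 1) ^ (D + 1) ≤ n := by
    rw [← hm1]; exact_mod_cast hm'.le
  have hden : (0 : ℝ) < k * ((m : ℝ) - 1) ^ (D + 1) := by positivity
  have hg' : (K : ℝ) ≤
      N * (m : ℝ) ^ (D + 1) + ((nb * ((D + 1) * k) : ℕ) : ℝ) * (m : ℝ) ^ D := by
    have h2 : N * m ^ (D + 1) + nb * ((D + 1) * (k * m ^ D)) =
        N * m ^ (D + 1) + nb * ((D + 1) * k) * m ^ D := by ring
    rw [h2] at hK
    exact_mod_cast hK
  rw [div_lt_iff₀ hden] at hlt
  have hc0 : 0 ≤ (N : ℝ) / k + ε := by positivity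
  exact (hg'.trans hlt.le).trans (mul_le_mul_of_nonneg_left hn2 hc0)

end K4

end Pool.Agent.BicliqueHalf
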