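import Mathlib
import Pool.Agent.Lib.MP_12ff4f_co.K4.Defs

set_option autoImplicit false

/-!
# Lower bounds: the blocks that do not vanish at a vector of `R^p`
-/

namespace Pool.Agent.BicliqueHalf

open Finset

namespace K4

theorem sum_side {q : ℕ} (A B : Finset (Fin q)) (s : Fin q → ℝ) :
    ∑ x, ∑ y, (if (x ∈ A ∧ y ∈ B) then s x * s y else 0) = (∑ x ∈ A, s x) * ∑ y ∈ B, s y := by
  rw [Finset.sum_mul_sum, ← Finset.sum_filter_add_sum_filter_not univ (fun x => x ∈ A)]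
  have h1 : (univ.filter fun x => x ∈ A) = A := by ext; simp
  rw [h1]
  have h2 : ∑ x ∈ univ.filter (fun x => ¬ x ∈ A), ∑ y,
      (if (x ∈ A ∧ y ∈ B) then s x * s y else 0) = 0 := by
    refine Finset.sum_eq_zero fun x hx => Finset.sum_eq_zero fun y _ => ?_
    rw [Finset.mem_filter] at hx
    rw [if_neg fun h => hx.2 h.1]
  rw [h2, add_zero]
  refine Finset.sum_congr rfl fun x hx => ?_
  rw [← Finset.sum_filter_add_sum_filter_not univ (fun y => y ∈ B)]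
  have h3 : (univ.filter fun x => x ∈ B) = B := by ext; simp
  rw [h3]
  have h4 : ∑ y ∈ univ.filter (fun y => ¬ y ∈ B),
      (if (x ∈ A ∧ y ∈ B) then s x * s y else 0) = 0 := by
    refine Finset.sum_eq_zero fun y hy => ?_
    rw [Finset.mem_filter] at hy
    rw [if_neg fun h => hy.2 h.2]
  rw [h4, add_zero]
  refine Finset.sum_congr rfl fun y hy => ?_
  rw [if_pos ⟨hx, hy⟩]

/-- the quadratic form of the biclique with sides `A, B` -/
theorem sum_cv {q : ℕ} (A B : Finset (Fin q)) (hAB : Disjoint A B) (s : Fin q → ℝ) :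
    ∑ x, ∑ y, (if ((x ∈ A ∧ y ∈ B) ∨ (x ∈ B ∧ y ∈ A)) then s x * s y else 0) =
      2 * ((∑ x ∈ A, s x) * ∑ y ∈ B, s y) := by
  have h : ∀ x y : Fin q, (if ((x ∈ A ∧ y ∈ B) ∨ (x ∈ B ∧ y ∈ A)) then s x * s y else 0) =
      (if (x ∈ A ∧ y ∈ B) then s x * s y else 0) + (if (x ∈ B ∧ y ∈ A) then s x * s y else 0) := by
    intro x y
    by_cases h1 : x ∈ A ∧ y ∈ B
    · have h2 : ¬ (x ∈ B ∧ y ∈ A) := fun h2 => Finset.disjoint_left.1 hAB h1.1 h2.1
      rw [if_pos h1, if_neg h2, if_pos (Or.inl h1), add_zero]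
    · by_cases h2 : x ∈ B ∧ y ∈ A
      · rw [if_neg h1, if_pos h2, if_pos (Or.inr h2), zero_add]
      · rw [if_neg h1, if_neg h2, if_neg (by tauto), zero_add]
  simp only [h, Finset.sum_add_distrib]
  rw [sum_side, sum_side]
  ring

theorem sum_ne {q : ℕ} (s : Fin q → ℝ) :
    ∑ x, ∑ y, (if x ≠ y then s x * s y else 0) = (∑ x, s x) ^ 2 - ∑ x, s x ^ 2 := by
  have h : ∀ x y : Fin q, (if x ≠ y then s x * s y else 0) =
      s x * s y - (if x = y then s x * s y else 0) := by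
    intro x y
    by_cases h : x = y
    · rw [if_neg (not_not.2 h), if_pos h, sub_self]
    · rw [if_pos h, if_neg h, sub_zero]
  simp only [h, Finset.sum_sub_distrib]
  congr 1
  · rw [sq, Finset.sum_mul_sum]
  · refine Finset.sum_congr rfl fun x _ => ?_
    rw [Finset.sum_ite_eq univ x, if_pos (Finset.mem_univ _), sq]

/-- **the polynomial identity of a partition** -/
theorem identity {p n k : ℕ} {A B : Fin k → Finset (Fin p)} {C D : Fin k → Finset (Fin n)}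
    (hAB : ∀ i, Disjoint (A i) (B i)) (hCD : ∀ i, Disjoint (C i) (D i))
    (h : ∀ (x y : Fin p) (u v : Fin n), x ≠ y → u ≠ v →
      ∃! i : Fin k, ((x ∈ A i ∧ y ∈ B i) ∨ (x ∈ B i ∧ y ∈ A i)) ∧
        ((u ∈ C i ∧ v ∈ D i) ∨ (u ∈ D i ∧ v ∈ C i)))
    (s : Fin p → ℝ) (t : Fin n → ℝ) :
    4 * ∑ i, ((∑ x ∈ A i, s x) * ∑ y ∈ B i, s y) * ((∑ u ∈ C i, t u) * ∑ v ∈ D i, t v) =
      ((∑ x, s x) ^ 2 - ∑ x, s x ^ 2) * ((∑ u, t u) ^ 2 - ∑ u, t u ^ 2) := by
  rw [← sum_ne s, ← sum_ne t]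
  have h1 : ∀ i, 4 * (((∑ x ∈ A i, s x) * ∑ y ∈ B i, s y) *
      ((∑ u ∈ C i, t u) * ∑ v ∈ D i, t v)) =
      ∑ x, ∑ y, ∑ u, ∑ v, (if ((x ∈ A i ∧ y ∈ B i) ∨ (x ∈ B i ∧ y ∈ A i)) then s x * s y else 0) *
        (if ((u ∈ C i ∧ v ∈ D i) ∨ (u ∈ D i ∧ v ∈ C i)) then t u * t v else 0) := by
    intro i
    have h2 := sum_cv (A i) (B i) (hAB i) s
    have h3 := sum_cv (C i) (D i) (hCD i) t
    calc _ = (2 * ((∑ x ∈ A i, s x) * ∑ y ∈ B i, s y)) *
        (2 * ((∑ u ∈ C i, t u) * ∑ v ∈ D i, t v)) := by ring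
      _ = _ := by
        rw [← h2, ← h3, Finset.sum_mul]
        refine Finset.sum_congr rfl fun x _ => ?_
        rw [Finset.sum_mul]
        refine Finset.sum_congr rfl fun y _ => ?_
        rw [Finset.mul_sum]
        refine Finset.sum_congr rfl fun u _ => ?_
        rw [Finset.mul_sum]
  rw [Finset.mul_sum]
  simp only [h1]
  rw [Finset.sum_comm, Finset.sum_mul]
  refine Finset.sum_congr rfl fun x _ => ?_
  rw [Finset.sum_comm, Finset.sum_mul]
  refine Finset.sum_congr rfl fun y _ => ?_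
  rw [Finset.sum_comm, Finset.mul_sum]
  refine Finset.sum_congr rfl fun u _ => ?_
  rw [Finset.sum_comm, Finset.mul_sum]
  refine Finset.sum_congr rfl fun v _ => ?_
  by_cases hxy : x = y
  · subst hxy
    rw [if_neg (not_not.2 rfl), zero_mul]
    refine Finset.sum_eq_zero fun i _ => ?_
    rw [if_neg, zero_mul]
    rintro (⟨h2, h3⟩ | ⟨h2, h3⟩)
    · exact Finset.disjoint_left.1 (hAB i) h2 h3
    · exact Finset.disjoint_left.1 (hAB i) h3 h2
  by_cases huv : u = v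
  · subst huv
    rw [if_neg (not_not.2 (rfl : u = u)), mul_zero]
    refine Finset.sum_eq_zero fun i _ => ?_
    rw [if_neg (c := ((u ∈ C i ∧ u ∈ D i) ∨ (u ∈ D i ∧ u ∈ C i))), mul_zero]
    rintro (⟨h2, h3⟩ | ⟨h2, h3⟩)
    · exact Finset.disjoint_left.1 (hCD i) h2 h3
    · exact Finset.disjoint_left.1 (hCD i) h3 h2
  rw [if_pos hxy, if_pos huv]
  obtain ⟨i, hi, hu⟩ := h x y u v hxy huv
  rw [Finset.sum_eq_single i]
  · rw [if_pos hi.1, if_pos hi.2]
  · intro j _ hj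
    have h2 : ¬ (((x ∈ A j ∧ y ∈ B j) ∨ (x ∈ B j ∧ y ∈ A j)) ∧
        ((u ∈ C j ∧ v ∈ D j) ∨ (u ∈ D j ∧ v ∈ C j))) := fun h2 => hj (hu j h2)
    by_cases h3 : (x ∈ A j ∧ y ∈ B j) ∨ (x ∈ B j ∧ y ∈ A j)
    · have h4 : ¬ ((u ∈ C j ∧ v ∈ D j) ∨ (u ∈ D j ∧ v ∈ C j)) := fun h4 => h2 ⟨h3, h4⟩
      rw [if_neg h4, mul_zero]
    · rw [if_neg h3, zero_mul]
  · intro hi2
    exact absurd (Finset.mem_univ i) hi2

/-- **Graham-Pollak with weights**: at a vector `s` with `e_2(s) ≠ 0` at least `n - 1` blocks do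
not vanish. -/
theorem count {p n k : ℕ} {A B : Fin k → Finset (Fin p)} {C D : Fin k → Finset (Fin n)}
    (hAB : ∀ i, Disjoint (A i) (B i)) (hCD : ∀ i, Disjoint (C i) (D i))
    (h : ∀ (x y : Fin p) (u v : Fin n), x ≠ y → u ≠ v →
      ∃! i : Fin k, ((x ∈ A i ∧ y ∈ B i) ∨ (x ∈ B i ∧ y ∈ A i)) ∧
        ((u ∈ C i ∧ v ∈ D i) ∨ (u ∈ D i ∧ v ∈ C i)))
    (s : Fin p → ℤ) (hs : (∑ x, s x) ^ 2 - ∑ x, s x ^ 2 ≠ 0) :
    n ≤ (univ.filter fun i => (∑ x ∈ A i, s x) * ∑ y ∈ B i, s y ≠ 0).card + 1 := by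
  classical
  set I := univ.filter fun i => (∑ x ∈ A i, s x) * ∑ y ∈ B i, s y ≠ 0 with hI
  by_contra hcon
  push Not at hcon
  -- the linear conditions
  let φ : (Fin n → ℝ) →ₗ[ℝ] ((I → ℝ) × ℝ) :=
    { toFun := fun t => (fun i => ∑ u ∈ C i.1, t u, ∑ u, t u)
      map_add' := by
        intro t t'
        ext1
        · funext i
          simp [Finset.sum_add_distrib]
        · simp [Finset.sum_add_distrib]
      map_smul' := by
        intro c t
        ext1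
        · funext i
          simp [Finset.mul_sum]
        · simp [Finset.mul_sum] }
  have hdim : Module.finrank ℝ ((I → ℝ) × ℝ) < Module.finrank ℝ (Fin n → ℝ) := by
    rw [Module.finrank_prod, Module.finrank_fintype_fun_eq_card, Module.finrank_self,
      Module.finrank_fintype_fun_eq_card, Fintype.card_fin, Fintype.card_coe]
    exact hcon
  have hker : LinearMap.ker φ ≠ ⊥ := LinearMap.ker_ne_bot_of_finrank_lt hdim
  obtain ⟨t, ht, ht0⟩ := Submodule.exists_mem_ne_zero_of_ne_bot hker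
  rw [LinearMap.mem_ker] at ht
  have h1 : ∀ i ∈ I, ∑ u ∈ C i, t u = 0 := by
    intro i hi
    exact congrFun (congrArg Prod.fst ht) ⟨i, hi⟩
  have h2 : ∑ u, t u = 0 := congrArg Prod.snd ht
  have h3 := identity hAB hCD h (fun x => (s x : ℝ)) t
  have h4 : ∑ i, ((∑ x ∈ A i, (s x : ℝ)) * ∑ y ∈ B i, (s y : ℝ)) *
      ((∑ u ∈ C i, t u) * ∑ v ∈ D i, t v) = 0 := by
    refine Finset.sum_eq_zero fun i _ => ?_
    by_cases hi : i ∈ I
    · rw [h1 i hi, zero_mul, mul_zero]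
    · have h5 : (∑ x ∈ A i, s x) * ∑ y ∈ B i, s y = 0 := by
        by_contra h6
        exact hi (Finset.mem_filter.2 ⟨Finset.mem_univ _, h6⟩)
      have h6 : (∑ x ∈ A i, (s x : ℝ)) * ∑ y ∈ B i, (s y : ℝ) = 0 := by
        exact_mod_cast h5
      rw [h6, zero_mul]
  rw [h4, mul_zero, h2] at h3
  have h5 : (∑ x, (s x : ℝ)) ^ 2 - ∑ x, (s x : ℝ) ^ 2 ≠ 0 := by exact_mod_cast hs
  have h6 : ∑ u, t u ^ 2 = 0 := by
    have h7 := (mul_eq_zero.1 h3.symm).resolve_left h5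
    linarith
  rw [Finset.sum_eq_zero_iff_of_nonneg fun u _ => sq_nonneg _] at h6
  apply ht0
  funext u
  exact pow_eq_zero_iff (two_ne_zero) |>.1 (h6 u (Finset.mem_univ _))

end K4

end Pool.Agent.BicliqueHalf
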