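import Mathlib
import Pool.Agent.Lib.MP_12ff4f_co.K4.Lower

set_option autoImplicit false

/-!
# The lower bound `(11/5) (n - 1)` for `E(K_4) x E(K_n)`
-/

namespace Pool.Agent.BicliqueHalf

open Finset

namespace K4

/-- the 21 vectors of the lower bound -/
def vec4 : Fin 21 → Fin 4 → ℤ :=
  ![![1, 1, 0, 0], ![1, 0, 1, 0], ![1, 0, 0, 1], ![0, 1, 1, 0], ![0, 1, 0, 1], ![0, 0, 1, 1],
    ![1, 1, -1, -1], ![1, -1, 1, -1], ![1, -1, -1, 1],
    ![1, 1, -1, 0], ![1, -1, 1, 0], ![-1, 1, 1, 0],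
    ![1, 1, 0, -1], ![1, -1, 0, 1], ![-1, 1, 0, 1],
    ![1, 0, 1, -1], ![1, 0, -1, 1], ![-1, 0, 1, 1],
    ![0, 1, 1, -1], ![0, 1, -1, 1], ![0, -1, 1, 1]]

/-- the weights of the 21 vectors -/
def wt4 : Fin 21 → ℕ :=
  ![6, 6, 6, 6, 6, 6, 5, 5, 5, 4, 4, 4, 4, 4, 4, 4, 4, 4, 4, 4, 4]

theorem vec4_weight : ∀ A B : Finset (Fin 4), A.Nonempty → B.Nonempty → Disjoint A B →
    (∑ j : Fin 21, wt4 j * if (∑ x ∈ A, vec4 j x) * ∑ y ∈ B, vec4 j y ≠ 0 then 1 else 0) ≤ 45 := by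
  decide +kernel

theorem sum_wt {J : Type} [Fintype J] (w : J → ℕ) (b k : ℕ) (f : Fin k → J → Prop)
    [∀ i j, Decidable (f i j)] (h : ∀ i, (∑ j : J, w j * if f i j then 1 else 0) ≤ b) :
    ∑ j : J, w j * (univ.filter fun i => f i j).card ≤ b * k := by
  simp only [Finset.card_filter, Finset.mul_sum]
  rw [Finset.sum_comm]
  calc _ ≤ ∑ _i : Fin k, b := Finset.sum_le_sum fun i _ => h i
    _ = b * k := by
        rw [Finset.sum_const, Finset.card_univ, Fintype.card_fin, smul_eq_mul, mul_comm]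

theorem wt_final {J : Type} [Fintype J] (w : J → ℕ) (b k n : ℕ) (c : J → ℕ)
    (h : ∑ j : J, w j * c j ≤ b * k) (hc : ∀ j, n ≤ c j + 1) :
    (∑ j, w j) * n ≤ b * k + ∑ j, w j := by
  have h5 : ∑ j : J, w j * n ≤ ∑ j : J, w j * (c j + 1) :=
    Finset.sum_le_sum fun j _ => Nat.mul_le_mul_left _ (hc j)
  simp only [mul_add, mul_one, Finset.sum_add_distrib] at h5
  rw [← Finset.sum_mul] at h5
  omega

/-- **lower bound** -/
theorem lower4 {n k : ℕ} (h : BicliqueK4.HasPartition 4 n k) : 11 * n ≤ 5 * k + 11 := by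
  obtain ⟨A, B, C, D, h1, h2⟩ := h
  have h3 : ∀ j : Fin 21, n ≤ (univ.filter fun i =>
      (∑ x ∈ A i, vec4 j x) * ∑ y ∈ B i, vec4 j y ≠ 0).card + 1 := by
    intro j
    refine count (fun i => (h1 i).2.2.1) (fun i => (h1 i).2.2.2.2.2) h2 (vec4 j) ?_
    revert j
    decide
  have h4 := sum_wt wt4 45 k (fun i j => (∑ x ∈ A i, vec4 j x) * ∑ y ∈ B i, vec4 j y ≠ 0)
    (fun i => vec4_weight (A i) (B i) (h1 i).1 (h1 i).2.1 (h1 i).2.2.1)
  have h5 := wt_final wt4 45 k n _ h4 h3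
  have h6 : ∑ j : Fin 21, wt4 j = 99 := by decide
  rw [h6] at h5
  omega

end K4

end Pool.Agent.BicliqueHalf
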