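import Mathlib
import Pool.Agent.Lib.MP_12ff4f_co.K4.Data
import Pool.Agent.Lib.MP_12ff4f_co.K4.Gen
import Pool.Agent.Lib.MP_12ff4f_co.K4.Lower

set_option autoImplicit false

/-!
# The exact asymptotics for `E(K_3) x E(K_n)`
-/

namespace Pool.Agent.BicliqueHalf

open Finset Filter Topology

namespace K4

/-- the certificate for `K_3` (a vertex of `K_4` is deleted) -/
def cert3 : GCert 3 5 6 6 9 where
  a := ![3, 5, 1, 1, 1, 2]
  b := ![4, 2, 6, 2, 4, 4]
  hab := by decide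
  L := 4
  col := look2 tCol
  hcol := look2_lt tCol
  mem := fun c => ![Nat.beq c 0, Nat.beq c 1, Nat.beq c 2, Nat.beq c 0 || Nat.beq c 3,
    Nat.beq c 1 || Nat.beq c 3, Nat.beq c 2 || Nat.beq c 3]
  hpart := by decide
  F := ![fH1, fH2, fH3, fJ1, fJ2, fJ3]
  d := ![look3 tH1, look3 tH2, look3 tH3, look3 tJ1, look3 tJ2, look3 tJ3]
  hchk := by
    intro i
    fin_cases i
    · exact chk_H1
    · exact chk_H2
    · exact chk_H3
    · exact chk_J1
    · exact chk_J2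
    · exact chk_J3
  hN := by decide

/-- the nine vectors of the lower bound -/
def vec3 : Fin 9 → Fin 3 → ℤ :=
  ![![1, 1, 0], ![1, 0, 1], ![0, 1, 1], ![1, 1, 0], ![1, 0, 1], ![0, 1, 1],
    ![1, 1, -1], ![1, -1, 1], ![-1, 1, 1]]

theorem vec3_five : ∀ A B : Finset (Fin 3), A.Nonempty → B.Nonempty → Disjoint A B →
    (univ.filter fun j : Fin 9 => (∑ x ∈ A, vec3 j x) * ∑ y ∈ B, vec3 j y ≠ 0).card ≤ 5 := by
  decide

/-- **lower bound** -/
theorem lower3 {n k : ℕ} (h : BicliqueK4.HasPartition 3 n k) : 9 * n ≤ 5 * k + 9 := by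
  obtain ⟨A, B, C, D, h1, h2⟩ := h
  have h3 : ∀ j : Fin 9, n ≤ (univ.filter fun i =>
      (∑ x ∈ A i, vec3 j x) * ∑ y ∈ B i, vec3 j y ≠ 0).card + 1 := by
    intro j
    refine count (fun i => (h1 i).2.2.1) (fun i => (h1 i).2.2.2.2.2) h2 (vec3 j) ?_
    revert j
    decide
  have h4 : ∑ j : Fin 9, (univ.filter fun i =>
      (∑ x ∈ A i, vec3 j x) * ∑ y ∈ B i, vec3 j y ≠ 0).card ≤ 5 * k := by
    simp only [Finset.card_filter]
    rw [Finset.sum_comm]
    simp only [← Finset.card_filter]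
    calc _ ≤ ∑ _i : Fin k, 5 :=
          Finset.sum_le_sum fun i _ => vec3_five (A i) (B i) (h1 i).1 (h1 i).2.1 (h1 i).2.2.1
      _ = 5 * k := by
          rw [Finset.sum_const, Finset.card_univ, Fintype.card_fin, smul_eq_mul, mul_comm]
  have h5 : ∑ _j : Fin 9, n ≤ ∑ j : Fin 9, ((univ.filter fun i =>
      (∑ x ∈ A i, vec3 j x) * ∑ y ∈ B i, vec3 j y ≠ 0).card + 1) :=
    Finset.sum_le_sum fun j _ => h3 j
  rw [Finset.sum_add_distrib, Finset.sum_const, Finset.sum_const, Finset.card_univ,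
    Fintype.card_fin, smul_eq_mul, smul_eq_mul] at h5
  omega

end K4

end Pool.Agent.BicliqueHalf
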